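import Pool.Agent.H88.MCR.Stmts3

/-! # Board mcr, row CPR: two edges of a diagram that is good relative to a relation (copy of CPP, helper89) -/

set_option autoImplicit false

namespace Pool.MCR

theorem cpr_swap1 (hINB : INB_S) {L : Type} [LinearOrder L] (s : Bool) (a b : L) (B : Arc L)
    (h : Cross (s, a, b) B) : Cross (s, b, a) B :=
  ⟨h.1, ((hINB L a b B.2.1 B.2.2).1).1 h.2⟩

theorem cpr_swap2 (hINB : INB_S) {L : Type} [LinearOrder L] (A : Arc L) (s : Bool) (c d : L)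
    (h : Cross A (s, c, d)) : Cross A (s, d, c) :=
  ⟨h.1, ((hINB L A.2.1 A.2.2 c d).2.1).1 h.2⟩

/-- edges with a common vertex do not cross -/
theorem cpr_adj (hINB : INB_S) {L : Type} [LinearOrder L] (R : ℕ → ℕ → Prop) (n : ℕ) (D : Diag L)
    (hG : GoodR R n D)
    (x y z t : ℕ) (hx : x < n) (hy : y < n) (hz : z < n) (ht : t < n) (hxy : R x y) (hzt : R z t)
    (h1 : ¬ (x = z ∧ y = t)) (h2 : ¬ (x = t ∧ y = z))
    (hs : x = z ∨ x = t ∨ y = z ∨ y = t) : NC (D.A x y) (D.A z t) := by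
  rcases hs with rfl | rfl | rfl | rfl
  · exact hG.adj x hx y hy t ht hxy hzt fun h => h1 ⟨rfl, h⟩
  · rintro A hA ⟨s, c, d⟩ hB hc
    have hB' := hG.symA z hz x hx hzt s c d hB
    exact hG.adj x hx y hy z hz hxy (hG.sym _ _ hzt) (fun h => h2 ⟨rfl, h⟩) A hA _ hB'
      (cpr_swap2 hINB A s c d hc)
  · rintro ⟨s, a, b⟩ hA B hB hc
    have hA' := hG.symA x hx y hy hxy s a b hA
    exact hG.adj y hy x hx t ht (hG.sym _ _ hxy) hzt (fun h => h2 ⟨h, rfl⟩) _ hA' B hB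
      (cpr_swap1 hINB s a b B hc)
  · rintro ⟨s, a, b⟩ hA ⟨s', c, d⟩ hB hc
    have hA' := hG.symA x hx y hy hxy s a b hA
    have hB' := hG.symA z hz y hy hzt s' c d hB
    exact hG.adj y hy x hx z hz (hG.sym _ _ hxy) (hG.sym _ _ hzt) (fun h => h1 ⟨h, rfl⟩) _ hA' _ hB'
      (cpr_swap2 hINB _ s' c d (cpr_swap1 hINB s a b _ hc))

theorem cpr_thm (hKIR : KIR_S) (hIN0 : IN0_S) (hIN1 : IN1_S) (hPRO : PRO_S) (hINB : INB_S) :
    CPR_S := by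
  intro R n D hG x hx y hy z hz t ht hxy hzt h1 h2
  have hxy0 : x ≠ y := fun h => hG.irr y (h ▸ hxy)
  obtain ⟨hK1, hK2, -⟩ := hKIR ℝ R n D hG
  -- two common points of the chains are not possible
  have hcom : ∀ c, c ∈ D.P x y → c ∈ D.P z t →
      (c = D.pos x ∧ (x = z ∨ x = t)) ∨ (c = D.pos y ∧ (y = z ∨ y = t)) :=
    hK2 x hx y hy z hz t ht hxy hzt h1 h2
  have hone : ∀ a b, a ∈ D.P x y → a ∈ D.P z t → b ∈ D.P x y → b ∈ D.P z t → a = b := by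
    intro a b ha ha' hb hb'
    rcases hcom a ha ha' with ⟨e1, f1⟩ | ⟨e1, f1⟩ <;> rcases hcom b hb hb' with ⟨e2, f2⟩ | ⟨e2, f2⟩
    · rw [e1, e2]
    · exfalso
      rcases f1 with f1 | f1 <;> rcases f2 with f2 | f2
      · exact hxy0 (f1.trans f2.symm)
      · exact h1 ⟨f1, f2⟩
      · exact h2 ⟨f1, f2⟩
      · exact hxy0 (f1.trans f2.symm)
    · exfalso
      rcases f1 with f1 | f1 <;> rcases f2 with f2 | f2
      · exact hxy0 (f2.trans f1.symm)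
      · exact h2 ⟨f2, f1⟩
      · exact h1 ⟨f2, f1⟩
      · exact hxy0 (f2.trans f1.symm)
    · rw [e1, e2]
  have hA : ∀ s a b, (s, a, b) ∈ D.A x y → a ∈ D.P x y ∧ b ∈ D.P x y ∧ a ≠ b := by
    intro s a b h
    obtain ⟨q1, q2, q3, -⟩ := (hK1 x hx y hy hxy).2.2.2.1 s a b h
    exact ⟨q1, q2, q3⟩
  have hB : ∀ s a b, (s, a, b) ∈ D.A z t → a ∈ D.P z t ∧ b ∈ D.P z t ∧ a ≠ b := by
    intro s a b h
    obtain ⟨q1, q2, q3, -⟩ := (hK1 z hz t ht hzt).2.2.2.1 s a b h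
    exact ⟨q1, q2, q3⟩
  -- a common point of arcs that do not cross
  have hnc : ∀ A ∈ D.A x y, ∀ B ∈ D.A z t, ¬ Cross A B → ∀ p, p ∈ arcSet A.1 A.2.1 A.2.2 →
      p ∈ arcSet B.1 B.2.1 B.2.2 → p.2 = 0 ∧ p.1 ∈ D.P x y ∧ p.1 ∈ D.P z t := by
    rintro ⟨s, a, b⟩ hA' ⟨s', c, d⟩ hB' hn p hp hq
    obtain ⟨q1, q2, q3⟩ := hA s a b hA'
    obtain ⟨r1, r2, r3⟩ := hB s' c d hB'
    have k1 : ¬ (s = s' ∧ a = c ∧ b = d) := by
      rintro ⟨-, rfl, rfl⟩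
      exact q3 (hone a b q1 r1 q2 r2)
    have k2 : ¬ (s = s' ∧ a = d ∧ b = c) := by
      rintro ⟨-, rfl, rfl⟩
      exact q3 (hone a b q1 r2 q2 r1)
    obtain ⟨m1, m2, m3⟩ := hIN0 s s' a b c d q3 r3 hn k1 k2 p hp hq
    refine ⟨m1, ?_, ?_⟩
    · rcases m2 with m2 | m2 <;> rw [m2] <;> assumption
    · rcases m3 with m3 | m3 <;> rw [m3] <;> assumption
  -- a common point of crossing arcs
  have hcr : ∀ A ∈ D.A x y, ∀ B ∈ D.A z t, Cross A B → ∃ q : ℝ × ℝ, q.2 ≠ 0 ∧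
      ∀ p, p ∈ arcSet A.1 A.2.1 A.2.2 → p ∈ arcSet B.1 B.2.1 B.2.2 → p = q := by
    rintro ⟨s, a, b⟩ hA' ⟨s', c, d⟩ hB' ⟨hs, hi⟩
    dsimp only at hs hi
    subst hs
    obtain ⟨q, hq1, hq2⟩ := hIN1 s a b c d hi
    refine ⟨q, hq1, fun p hp hp' => ?_⟩
    have : p ∈ arcSet s a b ∩ arcSet s c d := ⟨hp, hp'⟩
    rw [hq2] at this
    exact this
  -- at a common point off the spine all arcs cross
  have hoff : ∀ A ∈ D.A x y, ∀ B ∈ D.A z t, ∀ p, p ∈ arcSet A.1 A.2.1 A.2.2 →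
      p ∈ arcSet B.1 B.2.1 B.2.2 → p.2 ≠ 0 → Cross A B := by
    intro A hA' B hB' p hp hq h0
    by_contra hn
    exact h0 (hnc A hA' B hB' hn p hp hq).1
  have hind : ∀ A ∈ D.A x y, ∀ B ∈ D.A z t, Cross A B → x ≠ z ∧ x ≠ t ∧ y ≠ z ∧ y ≠ t := by
    intro A hA' B hB' hc
    have key : ¬ (x = z ∨ x = t ∨ y = z ∨ y = t) := fun hs =>
      cpr_adj hINB R n D hG x y z t hx hy hz ht hxy hzt h1 h2 hs A hA' B hB' hc
    tauto
  have huni : ∀ A ∈ D.A x y, ∀ B ∈ D.A z t, ∀ A' ∈ D.A x y, ∀ B' ∈ D.A z t, Cross A B →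
      Cross A' B' → A = A' ∧ B = B' := by
    intro A hA' B hB' A₁ hA₁ B₁ hB₁ hc hc₁
    obtain ⟨i1, i2, i3, i4⟩ := hind A hA' B hB' hc
    exact hG.two x hx y hy z hz t ht hxy hzt i1 i2 i3 i4 A hA' B hB' A₁ hA₁ B₁ hB₁ hc hc₁
  have hmain : ∀ p, p ∈ curve (D.A x y) → p ∈ curve (D.A z t) →
      (p.2 = 0 ∧ ∃ v, (v = x ∨ v = y) ∧ (v = z ∨ v = t) ∧ p = (D.pos v, 0)) ∨
      (p.2 ≠ 0 ∧ (∃ A ∈ D.A x y, ∃ B ∈ D.A z t, Cross A B ∧ p ∈ arcSet A.1 A.2.1 A.2.2 ∧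
        p ∈ arcSet B.1 B.2.1 B.2.2) ∧
        ProperCrossing (curve (D.A x y)) (curve (D.A z t)) p) := by
    rintro p ⟨A, hA', hp⟩ ⟨B, hB', hq⟩
    by_cases hc : Cross A B
    · right
      obtain ⟨q, hq0, hq1⟩ := hcr A hA' B hB' hc
      have hp0 : p.2 ≠ 0 := by
        rw [hq1 p hp hq]
        exact hq0
      refine ⟨hp0, ⟨A, hA', B, hB', hc, hp, hq⟩, ?_⟩
      refine hPRO (D.A x y) (D.A z t) A B p hA' hB' hc hp hq ?_ ?_
      · intro A₁ hA₁ hp₁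
        exact (huni A₁ hA₁ B hB' A hA' B hB' (hoff A₁ hA₁ B hB' p hp₁ hq hp0) hc).1
      · intro B₁ hB₁ hp₁
        exact (huni A hA' B₁ hB₁ A hA' B hB' (hoff A hA' B₁ hB₁ p hp hp₁ hp0) hc).2
    · left
      obtain ⟨m1, m2, m3⟩ := hnc A hA' B hB' hc p hp hq
      refine ⟨m1, ?_⟩
      rcases hcom p.1 m2 m3 with ⟨e, f⟩ | ⟨e, f⟩
      · exact ⟨x, Or.inl rfl, f, Prod.ext e m1⟩
      · exact ⟨y, Or.inr rfl, f, Prod.ext e m1⟩
  refine ⟨?_, hmain⟩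
  intro p hp q hq
  rcases hmain p hp.1 hp.2 with ⟨-, v, hv1, hv2, hv⟩ | ⟨-, ⟨A, hA', B, hB', hc, hpA, hpB⟩, -⟩
  · rcases hmain q hq.1 hq.2 with ⟨-, w, hw1, hw2, hw⟩ | ⟨-, ⟨A, hA', B, hB', hc, hqA, hqB⟩, -⟩
    · have hvw : v = w := by
        by_contra hne
        have e1 : (x = z ∧ y = t) ∨ (x = t ∧ y = z) := by omega
        rcases e1 with e1 | e1
        · exact h1 e1
        · exact h2 e1
      rw [hv, hw, hvw]
    · exfalso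
      obtain ⟨i1, i2, i3, i4⟩ := hind A hA' B hB' hc
      rcases hv1 with rfl | rfl <;> rcases hv2 with e | e
      · exact i1 e
      · exact i2 e
      · exact i3 e
      · exact i4 e
  · rcases hmain q hq.1 hq.2 with ⟨-, w, hw1, hw2, hw⟩ | ⟨-, ⟨A₁, hA₁, B₁, hB₁, hc₁, hqA, hqB⟩, -⟩
    · exfalso
      obtain ⟨i1, i2, i3, i4⟩ := hind A hA' B hB' hc
      rcases hw1 with rfl | rfl <;> rcases hw2 with e | e
      · exact i1 e
      · exact i2 e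
      · exact i3 e
      · exact i4 e
    · obtain ⟨rfl, rfl⟩ := huni A hA' B hB' A₁ hA₁ B₁ hB₁ hc hc₁
      obtain ⟨r, -, hr⟩ := hcr A hA' B hB' hc
      rw [hr p hpA hpB, hr q hqA hqB]

end Pool.MCR
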